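import Mathlib

/-!
# Averages over one coordinate of bounded measurable functions on a finite product of a law
(for the project KS of helper659)
-/

set_option autoImplicit false
set_option linter.all false

namespace Pool.Agent.N935.KS

open MeasureTheory
open scoped ENNReal

noncomputable section

/-- the clamp -/
def xi (t : ℝ) : ℝ := max (-1) (min 1 t)

theorem xi_meas : Measurable xi := by
  unfold xi
  exact measurable_const.max (measurable_const.min measurable_id)

theorem xi_abs (t : ℝ) : |xi t| ≤ 1 := by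
  unfold xi
  rw [abs_le]
  constructor
  · exact le_max_left _ _
  · exact max_le (by norm_num) (min_le_left _ _)

theorem xi_eq {t : ℝ} (h : |t| ≤ 1) : xi t = t := by
  unfold xi
  rw [abs_le] at h
  rw [min_eq_right h.2, max_eq_right h.1]

variable {Λ : Type} [Fintype Λ] [DecidableEq Λ]

/-- bounded measurable functions -/
def BM (Λ : Type) [Fintype Λ] : Submodule ℂ ((Λ → ℝ) → ℂ) where
  carrier := {F | Measurable F ∧ ∃ C : ℝ, ∀ u, ‖F u‖ ≤ C}
  add_mem' := by
    rintro F G ⟨hF, C, hC⟩ ⟨hG, D, hD⟩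
    exact ⟨hF.add hG, C + D, fun u => (norm_add_le _ _).trans (add_le_add (hC u) (hD u))⟩
  zero_mem' := ⟨measurable_const, 0, fun u => by simp⟩
  smul_mem' := by
    rintro c F ⟨hF, C, hC⟩
    refine ⟨hF.const_smul c, ‖c‖ * C, fun u => ?_⟩
    rw [Pi.smul_apply, norm_smul]
    exact mul_le_mul_of_nonneg_left (hC u) (norm_nonneg _)

theorem BM.meas (F : BM Λ) : Measurable F.1 := F.2.1

theorem BM.bd (F : BM Λ) : ∃ C : ℝ, ∀ u, ‖F.1 u‖ ≤ C := F.2.2

theorem BM.bd0 (F : BM Λ) : ∃ C : ℝ, 0 ≤ C ∧ ∀ u, ‖F.1 u‖ ≤ C := by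
  obtain ⟨C, hC⟩ := BM.bd F
  exact ⟨C, (norm_nonneg _).trans (hC fun _ => 0), hC⟩

theorem BM.add_apply (F G : BM Λ) (u : Λ → ℝ) : (F + G).1 u = F.1 u + G.1 u := rfl
theorem BM.sub_apply (F G : BM Λ) (u : Λ → ℝ) : (F - G).1 u = F.1 u - G.1 u := rfl
theorem BM.smul_apply (c : ℂ) (F : BM Λ) (u : Λ → ℝ) : (c • F).1 u = c * F.1 u := rfl
theorem BM.zero_apply (u : Λ → ℝ) : (0 : BM Λ).1 u = 0 := rfl
theorem BM.sum_apply {ι : Type} (s : Finset ι) (F : ι → BM Λ) (u : Λ → ℝ) :
    (∑ i ∈ s, F i).1 u = ∑ i ∈ s, (F i).1 u := by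
  classical
  induction s using Finset.induction_on with
  | empty => simp
  | insert a s ha ih =>
    rw [Finset.sum_insert ha, Finset.sum_insert ha, BM.add_apply, ih]

theorem BM.ext' {F G : BM Λ} (h : ∀ u, F.1 u = G.1 u) : F = G := Subtype.ext (funext h)

/-- multiplication by the clamped coordinate `y` -/
def Xm (y : Λ) : BM Λ →ₗ[ℂ] BM Λ where
  toFun F := ⟨fun u => ((xi (u y) : ℝ) : ℂ) * F.1 u, by
    refine ⟨(Complex.measurable_ofReal.comp (xi_meas.comp (measurable_pi_apply y))).mul (BM.meas F), ?_⟩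
    obtain ⟨C, hC⟩ := BM.bd F
    refine ⟨C, fun u => ?_⟩
    rw [norm_mul, Complex.norm_real, Real.norm_eq_abs]
    calc |xi (u y)| * ‖F.1 u‖ ≤ 1 * ‖F.1 u‖ :=
          mul_le_mul_of_nonneg_right (xi_abs _) (norm_nonneg _)
      _ ≤ C := by rw [one_mul]; exact hC u⟩
  map_add' F G := by
    apply BM.ext'; intro u
    show _ * (F.1 u + G.1 u) = _ * F.1 u + _ * G.1 u
    ring
  map_smul' c F := by
    apply BM.ext'; intro u
    show _ * (c * F.1 u) = c * (_ * F.1 u)
    ring

theorem Xm_apply (y : Λ) (F : BM Λ) (u : Λ → ℝ) :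
    (Xm y F).1 u = ((xi (u y) : ℝ) : ℂ) * F.1 u := rfl

variable (ν : Measure ℝ) [IsProbabilityMeasure ν]

theorem int_upd (y : Λ) (F : BM Λ) (u : Λ → ℝ) :
    Integrable (fun t => F.1 (Function.update u y t)) ν := by
  obtain ⟨C, hC⟩ := BM.bd F
  refine Integrable.of_bound (C := C) ?_ (Filter.Eventually.of_forall fun t => hC _)
  exact ((BM.meas F).comp (measurable_update u)).aestronglyMeasurable

theorem joint_meas (y : Λ) (F : BM Λ) :
    Measurable (fun p : (Λ → ℝ) × ℝ => F.1 (Function.update p.1 y p.2)) :=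
  (BM.meas F).comp measurable_update'

/-- average over the coordinate `y` -/
def Av (y : Λ) : BM Λ →ₗ[ℂ] BM Λ where
  toFun F := ⟨fun u => ∫ t, F.1 (Function.update u y t) ∂ν, by
    refine ⟨?_, ?_⟩
    · exact (StronglyMeasurable.integral_prod_right (ν := ν)
        (f := fun u t => F.1 (Function.update u y t))
        (joint_meas y F).stronglyMeasurable).measurable
    · obtain ⟨C, hC⟩ := BM.bd F
      refine ⟨C, fun u => ?_⟩
      refine (norm_integral_le_of_norm_le_const (C := C)
        (Filter.Eventually.of_forall fun t => hC _)).trans ?_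
      simp⟩
  map_add' F G := by
    apply BM.ext'; intro u
    exact integral_add (int_upd ν y F u) (int_upd ν y G u)
  map_smul' c F := by
    apply BM.ext'; intro u
    exact integral_const_mul c _

theorem Av_apply (y : Λ) (F : BM Λ) (u : Λ → ℝ) :
    (Av ν y F).1 u = ∫ t, F.1 (Function.update u y t) ∂ν := rfl

/-- `F` does not depend on the coordinate `x` -/
def Ind (x : Λ) (F : BM Λ) : Prop := ∀ (u : Λ → ℝ) (t : ℝ), F.1 (Function.update u x t) = F.1 u

theorem Ind.add {x : Λ} {F G : BM Λ} (hF : Ind x F) (hG : Ind x G) : Ind x (F + G) := by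
  intro u t
  rw [BM.add_apply, BM.add_apply, hF, hG]

theorem Ind.sub {x : Λ} {F G : BM Λ} (hF : Ind x F) (hG : Ind x G) : Ind x (F - G) := by
  intro u t
  rw [BM.sub_apply, BM.sub_apply, hF, hG]

theorem Ind.smul {x : Λ} {F : BM Λ} (c : ℂ) (hF : Ind x F) : Ind x (c • F) := by
  intro u t
  rw [BM.smul_apply, BM.smul_apply, hF]

theorem Ind.sum {x : Λ} {ι : Type} (s : Finset ι) {F : ι → BM Λ} (hF : ∀ i ∈ s, Ind x (F i)) :
    Ind x (∑ i ∈ s, F i) := by
  intro u t
  rw [BM.sum_apply, BM.sum_apply]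
  exact Finset.sum_congr rfl fun i hi => hF i hi u t

theorem Ind.Xm {x y : Λ} (h : x ≠ y) {F : BM Λ} (hF : Ind x F) : Ind x (Xm y F) := by
  intro u t
  rw [Xm_apply, Xm_apply, hF, Function.update_of_ne h.symm]

theorem Ind_Av (x : Λ) (F : BM Λ) : Ind x (Av ν x F) := by
  intro u t
  rw [Av_apply, Av_apply]
  simp only [Function.update_idem]

theorem Ind.Av {x y : Λ} {F : BM Λ} (hF : Ind x F) : Ind x (Av ν y F) := by
  by_cases h : x = y
  · subst h; exact Ind_Av ν x F
  · intro u t
    rw [Av_apply, Av_apply]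
    refine integral_congr_ae (Filter.Eventually.of_forall fun s => ?_)
    show F.1 _ = F.1 _
    rw [Function.update_comm h, hF]

theorem Av_of_Ind {x : Λ} {F : BM Λ} (hF : Ind x F) : Av ν x F = F := by
  apply BM.ext'; intro u
  rw [Av_apply]
  simp only [hF u]
  simp

theorem Av_Av (x : Λ) (F : BM Λ) : Av ν x (Av ν x F) = Av ν x F := Av_of_Ind ν (Ind_Av ν x F)

/-- `Av x` commutes with multiplication by another coordinate -/
theorem Av_Xm {x y : Λ} (h : x ≠ y) (F : BM Λ) : Av ν x (Xm y F) = Xm y (Av ν x F) := by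
  apply BM.ext'; intro u
  rw [Av_apply, Xm_apply, Av_apply, ← integral_const_mul]
  refine integral_congr_ae (Filter.Eventually.of_forall fun t => ?_)
  show (Xm y F).1 _ = _
  rw [Xm_apply, Function.update_of_ne h.symm]

/-- the average of the coordinate itself vanishes -/
theorem Av_Xm_self (hν : ∫ t, xi t ∂ν = 0) {y : Λ} {F : BM Λ} (hF : Ind y F) :
    Av ν y (Xm y F) = 0 := by
  apply BM.ext'; intro u
  rw [Av_apply]
  have : ∀ t, (Xm y F).1 (Function.update u y t) = ((xi t : ℝ) : ℂ) * F.1 u := by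
    intro t
    rw [Xm_apply, Function.update_self, hF]
  simp only [this]
  rw [integral_mul_const, integral_complex_ofReal, hν]
  simp [BM.zero_apply]

theorem Av_comm {x y : Λ} (h : x ≠ y) (F : BM Λ) : Av ν x (Av ν y F) = Av ν y (Av ν x F) := by
  apply BM.ext'; intro u
  simp only [Av_apply]
  obtain ⟨C, hC⟩ := BM.bd F
  rw [integral_integral_swap]
  · refine integral_congr_ae (Filter.Eventually.of_forall fun s => ?_)
    refine integral_congr_ae (Filter.Eventually.of_forall fun t => ?_)
    show F.1 _ = F.1 _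
    rw [Function.update_comm h]
  · refine Integrable.of_bound (C := C) ?_ (Filter.Eventually.of_forall fun p => hC _)
    have : Measurable (fun p : ℝ × ℝ => Function.update (Function.update u x p.1) y p.2) :=
      measurable_update'.comp (((measurable_update u).comp measurable_fst).prodMk measurable_snd)
    exact ((BM.meas F).comp this).aestronglyMeasurable

/-- the product measure -/
abbrev PP (Λ : Type) [Fintype Λ] (ν : Measure ℝ) : Measure (Λ → ℝ) := Measure.pi fun _ : Λ => ν

/-- resampling one coordinate preserves the product measure -/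
theorem mp_update (y : Λ) :
    MeasurePreserving (fun p : (Λ → ℝ) × ℝ => Function.update p.1 y p.2)
      ((PP Λ ν).prod ν) (PP Λ ν) := by
  refine ⟨measurable_update', ?_⟩
  symm
  apply Measure.pi_eq
  intro s hs
  rw [Measure.map_apply measurable_update' (MeasurableSet.univ_pi hs)]
  have e : (fun p : (Λ → ℝ) × ℝ => Function.update p.1 y p.2) ⁻¹' (Set.univ.pi s) =
      (Set.univ.pi (Function.update s y Set.univ)) ×ˢ (s y) := by
    ext ⟨u, t⟩
    simp only [Set.mem_preimage, Set.mem_pi, Set.mem_univ, forall_true_left, Set.mem_prod]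
    constructor
    · intro h
      refine ⟨fun i => ?_, by simpa using h y⟩
      by_cases hi : i = y
      · subst hi; simp
      · have := h i
        rw [Function.update_of_ne hi] at this ⊢
        exact this
    · rintro ⟨h1, h2⟩ i
      by_cases hi : i = y
      · subst hi; simpa using h2
      · have := h1 i
        rw [Function.update_of_ne hi] at this ⊢
        exact this
  rw [e, Measure.prod_prod, Measure.pi_pi]
  rw [← Finset.mul_prod_erase Finset.univ (fun i => ν (Function.update s y Set.univ i))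
    (Finset.mem_univ y), ← Finset.mul_prod_erase Finset.univ (fun i => ν (s i))
    (Finset.mem_univ y)]
  rw [Function.update_self, measure_univ, one_mul, mul_comm]
  congr 1
  refine Finset.prod_congr rfl fun i hi => ?_
  rw [Function.update_of_ne (Finset.ne_of_mem_erase hi)]

/-- averages do not change the integral -/
theorem int_Av (y : Λ) (F : BM Λ) : ∫ u, (Av ν y F).1 u ∂(PP Λ ν) = ∫ u, F.1 u ∂(PP Λ ν) := by
  obtain ⟨C, hC⟩ := BM.bd F
  rw [← (mp_update ν y).map_eq, integral_map measurable_update'.aemeasurable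
    (BM.meas F).aestronglyMeasurable, integral_prod]
  · rw [(mp_update ν y).map_eq]
    rfl
  · exact Integrable.of_bound (joint_meas y F).aestronglyMeasurable C
      (Filter.Eventually.of_forall fun p => hC _)

end

end Pool.Agent.N935.KS
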