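import Pool.Agent.N659.HB.Stm3
import Pool.Agent.N935.KS.Avg

/-!
# Project KS (helper659), task CG2: polynomial chaos for a general law with mean zero
-/

set_option autoImplicit false
set_option linter.all false

namespace Pool.Agent.N935.KS.CG2

open MeasureTheory Pool.Agent.N659.HB Pool.Agent.N935.KS
open scoped ENNReal InnerProductSpace

noncomputable section

variable {Λ : Type} [Fintype Λ] [DecidableEq Λ] (ν : Measure ℝ) [IsProbabilityMeasure ν]

/-! ### The embedding into the Hilbert space -/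

theorem mem (F : BM Λ) : MemLp F.1 2 (PP Λ ν) := by
  obtain ⟨C, hC⟩ := BM.bd F
  exact MemLp.of_bound (BM.meas F).aestronglyMeasurable C (Filter.Eventually.of_forall hC)

/-- the class of a bounded measurable function -/
def L : BM Λ →ₗ[ℂ] Lp ℂ 2 (PP Λ ν) where
  toFun F := (mem ν F).toLp F.1
  map_add' F G := MemLp.toLp_add (mem ν F) (mem ν G)
  map_smul' c F := MemLp.toLp_const_smul c (mem ν F)

theorem L_inner (F G : BM Λ) : ⟪L ν F, L ν G⟫_ℂ = ∫ u, ⟪F.1 u, G.1 u⟫_ℂ ∂(PP Λ ν) := by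
  rw [MeasureTheory.L2.inner_def]
  refine integral_congr_ae ?_
  filter_upwards [(mem ν F).coeFn_toLp, (mem ν G).coeFn_toLp] with u h1 h2
  show ⟪((mem ν F).toLp F.1) u, ((mem ν G).toLp G.1) u⟫_ℂ = _
  rw [h1, h2]

theorem L_norm (F : BM Λ) : ‖L ν F‖ ^ 2 = ∫ u, ‖F.1 u‖ ^ 2 ∂(PP Λ ν) := by
  have h : ((‖L ν F‖ ^ 2 : ℝ) : ℂ) = ((∫ u, ‖F.1 u‖ ^ 2 ∂(PP Λ ν) : ℝ) : ℂ) := by
    have h1 := inner_self_eq_norm_sq_to_K (𝕜 := ℂ) (L ν F)
    rw [L_inner] at h1
    rw [← integral_complex_ofReal]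
    rw [Complex.ofReal_pow]
    have h2 : ∀ u, ⟪F.1 u, F.1 u⟫_ℂ = ((‖F.1 u‖ ^ 2 : ℝ) : ℂ) := by
      intro u
      rw [inner_self_eq_norm_sq_to_K (𝕜 := ℂ) (F.1 u)]
      simp
    simp only [h2] at h1
    exact h1.symm
  exact_mod_cast h

/-- monotonicity -/
theorem L_mono {F G : BM Λ} (h : ∀ u, ‖F.1 u‖ ≤ ‖G.1 u‖) : ‖L ν F‖ ≤ ‖L ν G‖ := by
  rw [← sq_le_sq₀ (norm_nonneg _) (norm_nonneg _), L_norm, L_norm]
  obtain ⟨C, hC0, hC⟩ := BM.bd0 G
  refine integral_mono_of_nonneg (Filter.Eventually.of_forall fun u => sq_nonneg _) ?_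
    (Filter.Eventually.of_forall fun u => pow_le_pow_left₀ (norm_nonneg _) (h u) 2)
  refine Integrable.of_bound (C := C ^ 2) ((BM.meas G).norm.pow_const 2).aestronglyMeasurable
    (Filter.Eventually.of_forall fun u => ?_)
  rw [Real.norm_of_nonneg (sq_nonneg _)]
  exact pow_le_pow_left₀ (norm_nonneg _) (hC u) 2

/-- the integral -/
def Int : BM Λ →ₗ[ℂ] ℂ where
  toFun F := ∫ u, F.1 u ∂(PP Λ ν)
  map_add' F G := integral_add ((mem ν F).integrable (by norm_num)) ((mem ν G).integrable (by norm_num))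
  map_smul' c F := integral_const_mul c _

theorem Int_apply (F : BM Λ) : Int ν F = ∫ u, F.1 u ∂(PP Λ ν) := rfl

theorem Int_Av (y : Λ) (F : BM Λ) : Int ν (Av ν y F) = Int ν F := int_Av ν y F

/-- the product of the conjugate of `F` with `G` -/
def cm (F G : BM Λ) : BM Λ := ⟨fun u => ⟪F.1 u, G.1 u⟫_ℂ, by
  obtain ⟨C, hC0, hC⟩ := BM.bd0 F
  obtain ⟨D, hD0, hD⟩ := BM.bd0 G
  refine ⟨(BM.meas F).inner (BM.meas G), C * D, fun u => ?_⟩
  exact (norm_inner_le_norm _ _).trans (mul_le_mul (hC u) (hD u) (norm_nonneg _) hC0)⟩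

theorem Av_cm {x : Λ} {F G : BM Λ} (hF : Ind x F) : Av ν x (cm F G) = cm F (Av ν x G) := by
  apply BM.ext'; intro u
  rw [Av_apply]
  show ∫ t, ⟪F.1 (Function.update u x t), G.1 (Function.update u x t)⟫_ℂ ∂ν =
    ⟪F.1 u, (Av ν x G).1 u⟫_ℂ
  rw [Av_apply]
  simp only [hF u]
  exact integral_inner (int_upd ν x G u) (F.1 u)

theorem orth {x : Λ} {F G : BM Λ} (hF : Ind x F) (hG : Av ν x G = 0) :
    ⟪L ν F, L ν G⟫_ℂ = 0 := by
  rw [L_inner]
  show Int ν (cm F G) = 0
  rw [← Int_Av ν x, Av_cm ν hF, hG]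
  show ∫ u, ⟪F.1 u, (0 : BM Λ).1 u⟫_ℂ ∂(PP Λ ν) = 0
  simp [BM.zero_apply]

theorem Av_sub_Av (y : Λ) (F : BM Λ) : Av ν y (F - Av ν y F) = 0 := by
  rw [map_sub, Av_Av, sub_self]

theorem pyth (y : Λ) (F : BM Λ) :
    ‖L ν F‖ ^ 2 = ‖L ν (Av ν y F)‖ ^ 2 + ‖L ν (F - Av ν y F)‖ ^ 2 := by
  have h0 : ⟪L ν (Av ν y F), L ν (F - Av ν y F)⟫_ℂ = 0 :=
    orth ν (Ind_Av ν y F) (Av_sub_Av ν y F)
  have h1 : L ν F = L ν (Av ν y F) + L ν (F - Av ν y F) := by
    rw [← map_add]
    congr 1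
    abel
  rw [h1, norm_add_sq (𝕜 := ℂ), h0]
  simp

theorem L_Av (y : Λ) (F : BM Λ) : ‖L ν (Av ν y F)‖ ≤ ‖L ν F‖ := by
  rw [← sq_le_sq₀ (norm_nonneg _) (norm_nonneg _), pyth ν y F]
  linarith [sq_nonneg ‖L ν (F - Av ν y F)‖]

theorem L_Q (y : Λ) (F : BM Λ) : ‖L ν (F - Av ν y F)‖ ≤ ‖L ν F‖ := by
  rw [← sq_le_sq₀ (norm_nonneg _) (norm_nonneg _), pyth ν y F]
  linarith [sq_nonneg ‖L ν (Av ν y F)‖]

theorem L_Xm (y : Λ) (F : BM Λ) : ‖L ν (Xm y F)‖ ≤ ‖L ν F‖ := by
  refine L_mono ν fun u => ?_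
  rw [Xm_apply, norm_mul, Complex.norm_real, Real.norm_eq_abs]
  calc |xi (u y)| * ‖F.1 u‖ ≤ 1 * ‖F.1 u‖ := mul_le_mul_of_nonneg_right (xi_abs _) (norm_nonneg _)
    _ = _ := one_mul _

theorem Int_le (F : BM Λ) : ‖Int ν F‖ ≤ ‖L ν F‖ := by
  let one : BM Λ := ⟨fun _ => 1, measurable_const, 1, fun _ => by simp⟩
  have h1 : Int ν F = ⟪L ν one, L ν F⟫_ℂ := by
    rw [L_inner, Int_apply]
    simp [one]
  have h2 : ‖L ν one‖ = 1 := by
    have : ‖L ν one‖ ^ 2 = 1 := by
      rw [L_norm]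
      simp [one]
    nlinarith [norm_nonneg (L ν one)]
  rw [h1]
  refine (norm_inner_le_norm _ _).trans ?_
  rw [h2, one_mul]

/-! ### The arrays -/

variable (T : Λ → Λ → ℂ) (f : Λ → ℂ)

/-- constants -/
def cst (c : ℂ) : BM Λ := ⟨fun _ => c, measurable_const, ‖c‖, fun _ => le_rfl⟩

theorem Ind_cst (x : Λ) (c : ℂ) : Ind x (cst c : BM Λ) := fun _ _ => rfl

/-- `H(y; S)` -/
def HH (G : Λ → Finset Λ → BM Λ) (y : Λ) (S : Finset Λ) : BM Λ := ∑ y', T y y' • G y' S

/-- the arrays -/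
def GG : ℕ → Λ → Finset Λ → BM Λ
  | 0, y, S => if S = {y} then Xm y (cst (f y)) else 0
  | (k + 1), y, S =>
    if y ∈ S then Xm y (HH T (GG k) y (S.erase y)) +
      (Xm y (HH T (GG k) y S) - Av ν y (Xm y (HH T (GG k) y S)))
    else Av ν y (Xm y (HH T (GG k) y (insert y S)))

/-- the invariant -/
def Inv (S : Finset Λ) (F : BM Λ) : Prop := (∀ x, x ∉ S → Ind x F) ∧ ∀ x ∈ S, Av ν x F = 0

theorem Inv_HH {G : Λ → Finset Λ → BM Λ} (h : ∀ y S, Inv ν S (G y S)) (y : Λ) (S : Finset Λ) :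
    Inv ν S (HH T G y S) := by
  refine ⟨fun x hx => Ind.sum _ fun y' _ => ((h y' S).1 x hx).smul _, fun x hx => ?_⟩
  unfold HH
  rw [map_sum]
  refine Finset.sum_eq_zero fun y' _ => ?_
  rw [map_smul, (h y' S).2 x hx, smul_zero]

theorem Inv_GG (hν : ∫ t, xi t ∂ν = 0) (k : ℕ) : ∀ y S, Inv ν S (GG ν T f k y S) := by
  induction k with
  | zero =>
    intro y S
    rw [GG]
    split_ifs with h
    · subst h
      refine ⟨fun x hx => (Ind_cst x _).Xm (by simpa using hx), fun x hx => ?_⟩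
      rw [Finset.mem_singleton] at hx
      subst hx
      exact Av_Xm_self ν hν (Ind_cst _ _)
    · exact ⟨fun x _ u t => rfl, fun x _ => map_zero _⟩
  | succ k ih =>
    intro y S
    rw [GG]
    split_ifs with h
    · have h1 := Inv_HH ν T ih y (S.erase y)
      have h2 := Inv_HH ν T ih y S
      constructor
      · intro x hx
        have hxy : x ≠ y := fun e => hx (e ▸ h)
        have e1 := (h1.1 x (fun hh => hx (Finset.mem_of_mem_erase hh))).Xm hxy
        have e2 := (h2.1 x hx).Xm hxy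
        exact e1.add (e2.sub (e2.Av ν))
      · intro x hx
        rw [map_add, map_sub]
        by_cases hxy : x = y
        · subst hxy
          rw [Av_Xm_self ν hν (h1.1 x (Finset.notMem_erase _ _)), Av_Av, sub_self, add_zero]
        · rw [Av_Xm ν hxy, h1.2 x (Finset.mem_erase.mpr ⟨hxy, hx⟩), map_zero, Av_comm ν hxy,
            Av_Xm ν hxy, h2.2 x hx, map_zero, map_zero, sub_zero, add_zero]
    · have h1 := Inv_HH ν T ih y (insert y S)
      constructor
      · intro x hx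
        by_cases hxy : x = y
        · subst hxy; exact Ind_Av ν _ _
        · exact ((h1.1 x (by simp [hxy, hx])).Xm hxy).Av ν
      · intro x hx
        have hxy : x ≠ y := fun e => h (e ▸ hx)
        rw [Av_comm ν hxy, Av_Xm ν hxy, h1.2 x (Finset.mem_insert_of_mem hx), map_zero, map_zero]

theorem sum_erase {M : Type} [AddCommMonoid M] (y : Λ) (g : Finset Λ → M) :
    ∑ S ∈ Finset.univ.filter (fun S : Finset Λ => y ∈ S), g (S.erase y) =
      ∑ S ∈ Finset.univ.filter (fun S : Finset Λ => y ∉ S), g S := by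
  refine Finset.sum_bij' (fun S _ => S.erase y) (fun S _ => insert y S) ?_ ?_ ?_ ?_ ?_
  · intro S hS; simp
  · intro S hS; simp
  · intro S hS
    exact Finset.insert_erase (Finset.mem_filter.mp hS).2
  · intro S hS
    exact Finset.erase_insert (Finset.mem_filter.mp hS).2
  · intro S hS; rfl

theorem sum_insert' {M : Type} [AddCommMonoid M] (y : Λ) (g : Finset Λ → M) :
    ∑ S ∈ Finset.univ.filter (fun S : Finset Λ => y ∉ S), g (insert y S) =
      ∑ S ∈ Finset.univ.filter (fun S : Finset Λ => y ∈ S), g S := by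
  refine Finset.sum_bij' (fun S _ => insert y S) (fun S _ => S.erase y) ?_ ?_ ?_ ?_ ?_
  · intro S hS; simp
  · intro S hS; simp
  · intro S hS
    exact Finset.erase_insert (Finset.mem_filter.mp hS).2
  · intro S hS
    exact Finset.insert_erase (Finset.mem_filter.mp hS).2
  · intro S hS; rfl

/-- the sum over `S` -/
theorem sum_GG (k : ℕ) (y : Λ) (u : Λ → ℝ) :
    (∑ S : Finset Λ, GG ν T f k y S).1 u = yk T f (fun x => xi (u x)) k y := by
  induction k generalizing y with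
  | zero =>
    have h : (∑ S : Finset Λ, GG ν T f 0 y S) = Xm y (cst (f y)) := by
      simp only [GG]
      rw [Finset.sum_ite_eq' Finset.univ ({y} : Finset Λ)]
      simp
    rw [h]
    rfl
  | succ k ih =>
    have h : (∑ S : Finset Λ, GG ν T f (k + 1) y S) =
        Xm y (∑ S : Finset Λ, HH T (GG ν T f k) y S) := by
      rw [← Finset.sum_filter_add_sum_filter_not Finset.univ (fun S : Finset Λ => y ∈ S)]
      have e1 : ∑ S ∈ Finset.univ.filter (fun S : Finset Λ => y ∈ S), GG ν T f (k + 1) y S =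
          ∑ S ∈ Finset.univ.filter (fun S : Finset Λ => y ∉ S), Xm y (HH T (GG ν T f k) y S) +
          ∑ S ∈ Finset.univ.filter (fun S : Finset Λ => y ∈ S),
            (Xm y (HH T (GG ν T f k) y S) - Av ν y (Xm y (HH T (GG ν T f k) y S))) := by
        rw [← sum_erase y, ← Finset.sum_add_distrib]
        refine Finset.sum_congr rfl fun S hS => ?_
        rw [GG, if_pos (Finset.mem_filter.mp hS).2]
      have e2 : ∑ S ∈ Finset.univ.filter (fun S : Finset Λ => y ∉ S), GG ν T f (k + 1) y S =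
          ∑ S ∈ Finset.univ.filter (fun S : Finset Λ => y ∈ S),
            Av ν y (Xm y (HH T (GG ν T f k) y S)) := by
        rw [← sum_insert' y]
        refine Finset.sum_congr rfl fun S hS => ?_
        rw [GG, if_neg (Finset.mem_filter.mp hS).2]
      rw [e1, e2, add_assoc, ← Finset.sum_add_distrib, map_sum,
        ← Finset.sum_filter_add_sum_filter_not Finset.univ (fun S : Finset Λ => y ∈ S)
          (fun S => Xm y (HH T (GG ν T f k) y S)), add_comm]
      congr 1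
      refine Finset.sum_congr rfl fun S _ => ?_
      abel
    rw [h, Xm_apply, yk]
    congr 1
    have h2 : (∑ S : Finset Λ, HH T (GG ν T f k) y S) =
        ∑ y', T y y' • ∑ S : Finset Λ, GG ν T f k y' S := by
      unfold HH
      rw [Finset.sum_comm]
      simp only [Finset.smul_sum]
    rw [h2, BM.sum_apply]
    refine Finset.sum_congr rfl fun y' _ => ?_
    rw [BM.smul_apply, ih y']

/-- orthogonality -/
theorem norm_sum (hν : ∫ t, xi t ∂ν = 0) (k : ℕ) (y : Λ) :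
    ‖L ν (∑ S : Finset Λ, GG ν T f k y S)‖ ^ 2 = ∑ S : Finset Λ, ‖L ν (GG ν T f k y S)‖ ^ 2 := by
  have hinv := Inv_GG ν T f hν k y
  have hor : ∀ S S' : Finset Λ, S ≠ S' → ⟪L ν (GG ν T f k y S), L ν (GG ν T f k y S')⟫_ℂ = 0 := by
    intro S S' hne
    by_cases h : ∃ x ∈ S', x ∉ S
    · obtain ⟨x, hx, hx'⟩ := h
      exact orth ν ((hinv S).1 x hx') ((hinv S').2 x hx)
    · push Not at h
      have h' : ∃ x ∈ S, x ∉ S' := by
        by_contra hno
        push Not at hno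
        exact hne (Finset.Subset.antisymm hno h)
      obtain ⟨x, hx, hx'⟩ := h'
      rw [← inner_conj_symm, orth ν ((hinv S').1 x hx') ((hinv S).2 x hx), map_zero]
  have h1 : ((‖L ν (∑ S : Finset Λ, GG ν T f k y S)‖ ^ 2 : ℝ) : ℂ) =
      ((∑ S : Finset Λ, ‖L ν (GG ν T f k y S)‖ ^ 2 : ℝ) : ℂ) := by
    rw [map_sum, Complex.ofReal_sum]
    have h2 := inner_self_eq_norm_sq_to_K (𝕜 := ℂ) (∑ S : Finset Λ, L ν (GG ν T f k y S))
    rw [Complex.ofReal_pow]
    refine h2.symm.trans ?_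
    rw [sum_inner]
    refine Finset.sum_congr rfl fun S _ => ?_
    rw [inner_sum, Finset.sum_eq_single S (fun S' _ hne => hor S S' hne.symm)
      (fun h => absurd (Finset.mem_univ _) h)]
    rw [inner_self_eq_norm_sq_to_K (𝕜 := ℂ)]
    simp
  exact_mod_cast h1

theorem Int_sum (hν : ∫ t, xi t ∂ν = 0) (k : ℕ) (y : Λ) :
    Int ν (∑ S : Finset Λ, GG ν T f k y S) = Int ν (GG ν T f k y ∅) := by
  rw [map_sum, Finset.sum_eq_single ∅]
  · intro S _ hne
    obtain ⟨x, hx⟩ := Finset.nonempty_iff_ne_empty.mpr hne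
    rw [← Int_Av ν x, (Inv_GG ν T f hν k y S).2 x hx, map_zero]
  · intro h; exact absurd (Finset.mem_univ _) h

theorem main (h : S_CG1) : S_CG2 := by
  intro ν _ hb hm Λ _ _ T M θ b κ hM hb0 hκ hT h1 h2 h3 h4 h5 h6 f k hk
  have hxi : ∀ᵐ x ∂ν, xi x = x := hb.mono fun x hx => xi_eq hx
  have hν : ∫ t, xi t ∂ν = 0 := by rw [integral_congr_ae hxi, hm]
  have hG := h Λ (Lp ℂ 2 (PP Λ ν)) T M θ b κ hM hb0 hκ hT h1 h2 h3 h4 h5 h6
    (fun k y S => L ν (GG ν T f k y S)) (fun y => ‖f y‖)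
    (by
      intro y S hS
      show L ν (GG ν T f 0 y S) = 0
      rw [GG, if_neg hS, map_zero])
    (by
      intro y
      show ‖L ν (GG ν T f 0 y {y})‖ ≤ ‖f y‖
      rw [GG, if_pos rfl]
      refine (L_Xm ν y _).trans ?_
      have : ‖L ν (cst (f y) : BM Λ)‖ ^ 2 = ‖f y‖ ^ 2 := by
        rw [L_norm]
        simp [cst]
      exact ((sq_eq_sq₀ (norm_nonneg _) (norm_nonneg _)).mp this).le)
    (by
      intro k y S hy
      have e : ∀ S, ∑ y', T y y' • L ν (GG ν T f k y' S) = L ν (HH T (GG ν T f k) y S) := by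
        intro S
        unfold HH
        rw [map_sum]
        exact Finset.sum_congr rfl fun y' _ => (map_smul _ _ _).symm
      show ‖L ν (GG ν T f (k + 1) y S)‖ ≤ ‖∑ y', T y y' • L ν (GG ν T f k y' (S.erase y))‖ +
        ‖∑ y', T y y' • L ν (GG ν T f k y' S)‖
      rw [e, e, GG, if_pos hy, map_add]
      refine (norm_add_le _ _).trans (add_le_add (L_Xm ν y _) ?_)
      exact (L_Q ν y _).trans (L_Xm ν y _))
    (by
      intro k y S hy
      have e : ∀ S, ∑ y', T y y' • L ν (GG ν T f k y' S) = L ν (HH T (GG ν T f k) y S) := by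
        intro S
        unfold HH
        rw [map_sum]
        exact Finset.sum_congr rfl fun y' _ => (map_smul _ _ _).symm
      show ‖L ν (GG ν T f (k + 1) y S)‖ ≤ ‖∑ y', T y y' • L ν (GG ν T f k y' (insert y S))‖
      rw [e, GG, if_neg hy]
      exact (L_Av ν y _).trans (L_Xm ν y _)) k hk
  -- almost everywhere the clamp is the identity
  have hae : ∀ᵐ u ∂(Measure.pi fun _ : Λ => ν), ∀ x, xi (u x) = u x := by
    rw [ae_all_iff]
    intro x
    have := (measurePreserving_eval (fun _ : Λ => ν) x).quasiMeasurePreserving.ae hxi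
    exact this
  have hyk : ∀ y, ∀ᵐ u ∂(Measure.pi fun _ : Λ => ν),
      yk T f u k y = (∑ S : Finset Λ, GG ν T f k y S).1 u := by
    intro y
    filter_upwards [hae] with u hu
    rw [sum_GG]
    congr 1
    funext x
    exact (hu x).symm
  constructor
  · have e1 : ∫ u, (∑ y, ‖yk T f u k y‖ ^ 2) ∂(Measure.pi fun _ : Λ => ν) =
        ∑ y, ∑ S : Finset Λ, ‖L ν (GG ν T f k y S)‖ ^ 2 := by
      have e2 : ∫ u, (∑ y, ‖yk T f u k y‖ ^ 2) ∂(Measure.pi fun _ : Λ => ν) =
          ∫ u, (∑ y, ‖(∑ S : Finset Λ, GG ν T f k y S).1 u‖ ^ 2)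
            ∂(Measure.pi fun _ : Λ => ν) := by
        refine integral_congr_ae ?_
        have : ∀ᵐ u ∂(Measure.pi fun _ : Λ => ν), ∀ y,
          yk T f u k y = (∑ S : Finset Λ, GG ν T f k y S).1 u := by
          rw [ae_all_iff]; exact hyk
        filter_upwards [this] with u hu
        exact Finset.sum_congr rfl fun y _ => by rw [hu y]
      rw [e2, integral_finset_sum]
      · refine Finset.sum_congr rfl fun y _ => ?_
        rw [← norm_sum ν T f hν k y, L_norm]
      · intro y _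
        obtain ⟨C, hC0, hC⟩ := BM.bd0 (∑ S : Finset Λ, GG ν T f k y S)
        refine Integrable.of_bound (C := C ^ 2)
          ((BM.meas (∑ S : Finset Λ, GG ν T f k y S)).norm.pow_const 2).aestronglyMeasurable
          (Filter.Eventually.of_forall fun u => ?_)
        rw [Real.norm_of_nonneg (sq_nonneg _)]
        exact pow_le_pow_left₀ (norm_nonneg _) (hC u) 2
    rw [e1]
    exact hG.1
  · refine le_trans (Finset.sum_le_sum fun y _ => ?_) hG.2
    have e : ∫ u, yk T f u k y ∂(Measure.pi fun _ : Λ => ν) = Int ν (GG ν T f k y ∅) := by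
      rw [integral_congr_ae (hyk y), ← Int_sum ν T f hν k y]
      rfl
    rw [e]
    exact pow_le_pow_left₀ (norm_nonneg _) (Int_le ν _) 2

end

end Pool.Agent.N935.KS.CG2
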